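import Pool.Agent.W770.PC.Stms

set_option autoImplicit false

/-! PC-time: measure of the times at which a cell is in a class. -/

open MeasureTheory Set Filter Topology
open scoped ENNReal NNReal

namespace Pool.Agent.W271.PC

open Pool.Agent.W770.PC

theorem cell_compact (a : ℕ) (k : ℕ × ℕ) : IsCompact (cell a k) :=
  isCompact_Icc.prod isCompact_Icc

/-- second derivatives of the phase. -/
theorem hess_ph (h1 : S_der) {F h : ℝ × ℝ → ℝ} (hF : ContDiff ℝ (⊤ : ℕ∞) F)
    (hh : ContDiff ℝ (⊤ : ℕ∞) h) (t : ℝ) (y : ℝ × ℝ) :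
    d1 (d1 (ph F h t)) y = d1 (d1 F) y + t * d1 (d1 h) y ∧
    d1 (d2 (ph F h t)) y = d1 (d2 F) y + t * d1 (d2 h) y ∧
    d2 (d2 (ph F h t)) y = d2 (d2 F) y + t * d2 (d2 h) y := by
  have e1 : d1 (ph F h t) = ph (d1 F) (d1 h) t := by
    funext y
    exact ((h1 F hF).2.2.2.2.2.2.1 h hh t y).1
  have e2 : d2 (ph F h t) = ph (d2 F) (d2 h) t := by
    funext y
    exact ((h1 F hF).2.2.2.2.2.2.1 h hh t y).2
  have s1 := (h1 F hF).1
  have s2 := (h1 F hF).2.1
  have s1' := (h1 h hh).1
  have s2' := (h1 h hh).2.1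
  refine ⟨?_, ?_, ?_⟩
  · rw [e1]; exact ((h1 _ s1).2.2.2.2.2.2.1 _ s1' t y).1
  · rw [e2]; exact ((h1 _ s2).2.2.2.2.2.2.1 _ s2' t y).1
  · rw [e2]; exact ((h1 _ s2).2.2.2.2.2.2.1 _ s2' t y).2

theorem cont_joint (h1 : S_der) {F h : ℝ × ℝ → ℝ} (hF : ContDiff ℝ (⊤ : ℕ∞) F)
    (hh : ContDiff ℝ (⊤ : ℕ∞) h) :
    Continuous (fun z : ℝ × (ℝ × ℝ) => hess (ph F h z.1) z.2) ∧
    Continuous (fun z : ℝ × (ℝ × ℝ) => det2 (ph F h z.1) z.2) := by
  have c11 : Continuous (d1 (d1 F)) := (h1 _ (h1 F hF).1).1.continuous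
  have c12 : Continuous (d1 (d2 F)) := (h1 _ (h1 F hF).2.1).1.continuous
  have c22 : Continuous (d2 (d2 F)) := (h1 _ (h1 F hF).2.1).2.1.continuous
  have k11 : Continuous (d1 (d1 h)) := (h1 _ (h1 h hh).1).1.continuous
  have k12 : Continuous (d1 (d2 h)) := (h1 _ (h1 h hh).2.1).1.continuous
  have k22 : Continuous (d2 (d2 h)) := (h1 _ (h1 h hh).2.1).2.1.continuous
  have e1 : (fun z : ℝ × (ℝ × ℝ) => hess (ph F h z.1) z.2) = fun z =>
      |d1 (d1 F) z.2 + z.1 * d1 (d1 h) z.2| + |d1 (d2 F) z.2 + z.1 * d1 (d2 h) z.2|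
        + |d2 (d2 F) z.2 + z.1 * d2 (d2 h) z.2| := by
    funext z
    obtain ⟨x1, x2, x3⟩ := hess_ph h1 hF hh z.1 z.2
    unfold hess
    rw [x1, x2, x3]
  have e2 : (fun z : ℝ × (ℝ × ℝ) => det2 (ph F h z.1) z.2) = fun z =>
      (d1 (d1 F) z.2 + z.1 * d1 (d1 h) z.2) * (d2 (d2 F) z.2 + z.1 * d2 (d2 h) z.2)
        - (d1 (d2 F) z.2 + z.1 * d1 (d2 h) z.2) ^ 2 := by
    funext z
    obtain ⟨x1, x2, x3⟩ := hess_ph h1 hF hh z.1 z.2
    unfold det2
    rw [x1, x2, x3]
  rw [e1, e2]
  constructor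
  · fun_prop
  · fun_prop

/-- the lower bound for the measure of the good points of a cell. -/
theorem lower (h1 : S_der) (h2 : S_cell) {C : ℝ} (hC : 0 < C) {F h : ℝ × ℝ → ℝ}
    (hT : Tame C F h) (a b : ℕ) (k : ℕ × ℕ) (hk : k ∈ grid a) (t : ℝ)
    (ht1 : 1 ≤ C * NN (ph F h t) a k) (ht2 : DD (ph F h t) a k ≤ 2 ^ b) :
    1 / (4 * C * 4 ^ a) ≤ (volume.restrict (cell a k)).real
      {y | (4 : ℝ) ^ a / (8 * C) ≤ hess (ph F h t) y ∧
        |det2 (ph F h t) y| ≤ 2 ^ (b + 1) * 4 ^ a * (2 * C)} := by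
  obtain ⟨cH, cD⟩ := cont_joint h1 hT.smF hT.smh
  have cH' : Continuous (fun y => hess (ph F h t) y) :=
    cH.comp (Continuous.prodMk continuous_const continuous_id)
  have cD' : Continuous (fun y => |det2 (ph F h t) y|) :=
    (cD.comp (Continuous.prodMk continuous_const continuous_id)).abs
  set N : ℝ := NN (ph F h t) a k with hN
  set G : Set (ℝ × ℝ) := {y | (4 : ℝ) ^ a / (8 * C) ≤ hess (ph F h t) y ∧
        |det2 (ph F h t) y| ≤ 2 ^ (b + 1) * 4 ^ a * (2 * C)} with hG
  have hGm : MeasurableSet G :=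
    ((isClosed_le continuous_const cH').inter (isClosed_le cD' continuous_const)).measurableSet
  set P : ℝ := (4 : ℝ) ^ a with hP
  have hP0 : 0 < P := by positivity
  set lam : ℝ := 2 ^ (b + 1) * P * (2 * C) with hlam
  have hlam0 : 0 < lam := by positivity
  have hN0 : 0 < N := by
    by_contra hcon
    push Not at hcon
    nlinarith
  have hCell := cell_compact a k
  have iH : IntegrableOn (fun y => hess (ph F h t) y) (cell a k) :=
    cH'.continuousOn.integrableOn_compact hCell
  have iD : IntegrableOn (fun y => |det2 (ph F h t) y|) (cell a k) :=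
    cD'.continuousOn.integrableOn_compact hCell
  haveI : IsFiniteMeasure (volume.restrict (cell a k)) :=
    ⟨by rw [Measure.restrict_apply_univ]; exact hCell.measure_lt_top⟩
  have iG : Integrable (G.indicator (1 : ℝ × ℝ → ℝ)) (volume.restrict (cell a k)) :=
    (integrable_const (1 : ℝ)).indicator hGm
  have hV : (volume.restrict (cell a k)).real univ = 4 * P⁻¹ := by
    rw [measureReal_def, Measure.restrict_apply_univ, h2.2.1, ENNReal.toReal_ofReal (by positivity)]
  -- the pointwise inequality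
  have hpt : ∀ y ∈ cell a k, hess (ph F h t) y ≤
      N * P / 8 + C * P * N * G.indicator (1 : ℝ × ℝ → ℝ) y
        + C * P * N / lam * |det2 (ph F h t) y| := by
    intro y hy
    have hs := hT.sup2 t a k hk y hy
    have hd : 0 ≤ |det2 (ph F h t) y| := abs_nonneg _
    have hcoef : 0 ≤ C * P * N / lam := by positivity
    have hcn : 0 ≤ N * P / 8 := by positivity
    have hcpn : 0 ≤ C * P * N := by positivity
    by_cases hyG : y ∈ G
    · rw [indicator_of_mem hyG, Pi.one_apply, mul_one]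
      have := mul_nonneg hcoef hd
      linarith
    · rw [indicator_of_notMem hyG, mul_zero, add_zero]
      by_cases hL : P / (8 * C) ≤ hess (ph F h t) y
      · have hD : lam < |det2 (ph F h t) y| := by
          by_contra hcon
          push Not at hcon
          exact hyG ⟨hL, hcon⟩
        have h3 : C * P * N ≤ C * P * N / lam * |det2 (ph F h t) y| := by
          rw [div_mul_eq_mul_div, le_div_iff₀ hlam0]
          exact mul_le_mul_of_nonneg_left hD.le hcpn
        linarith
      · push Not at hL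
        have h4 : P / (8 * C) ≤ N * P / 8 := by
          rw [div_le_div_iff₀ (by positivity) (by norm_num)]
          nlinarith
        have := mul_nonneg hcoef hd
        linarith
  have hint : N ≤ ∫ y in cell a k, (N * P / 8 + C * P * N * G.indicator (1 : ℝ × ℝ → ℝ) y
        + C * P * N / lam * |det2 (ph F h t) y|) := by
    rw [hN]
    unfold NN
    refine setIntegral_mono_on iH ?_ hCell.measurableSet hpt
    exact ((integrable_const _).add (iG.const_mul _)).add (iD.const_mul _)
  have j1 : Integrable (fun _ : ℝ × ℝ => N * P / 8) (volume.restrict (cell a k)) :=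
    integrable_const _
  have j2 : Integrable (fun y : ℝ × ℝ => C * P * N * G.indicator (1 : ℝ × ℝ → ℝ) y)
    (volume.restrict (cell a k)) := iG.const_mul _
  have j3 : Integrable (fun y : ℝ × ℝ => C * P * N / lam * |det2 (ph F h t) y|)
    (volume.restrict (cell a k)) := iD.const_mul _
  have j12 : Integrable (fun y : ℝ × ℝ => N * P / 8 + C * P * N * G.indicator (1 : ℝ × ℝ → ℝ) y)
    (volume.restrict (cell a k)) := j1.add j2
  rw [integral_add j12 j3, integral_add j1 j2, integral_const, integral_const_mul,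
    integral_const_mul, integral_indicator_one hGm, hV, smul_eq_mul] at hint
  have hDD : ∫ y in cell a k, |det2 (ph F h t) y| ≤ 2 ^ b := ht2
  have h5 : C * P * N / lam * ∫ y in cell a k, |det2 (ph F h t) y| ≤ N / 4 := by
    have h6 : C * P * N / lam * ∫ y in cell a k, |det2 (ph F h t) y| ≤ C * P * N / lam * 2 ^ b :=
      mul_le_mul_of_nonneg_left hDD (by positivity)
    refine h6.trans_eq ?_
    rw [hlam, pow_succ]
    field_simp
    norm_num
  have h7 : 4 * P⁻¹ * (N * P / 8) = N / 2 := by field_simp; norm_num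
  rw [h7] at hint
  have h8 : N / 4 ≤ C * P * N * (volume.restrict (cell a k)).real G := by linarith
  rw [div_le_iff₀ (by positivity)]
  have h9 : 1 / 4 ≤ C * P * (volume.restrict (cell a k)).real G := by
    have h10 : N * (1 / 4) ≤ N * (C * P * (volume.restrict (cell a k)).real G) := by linarith
    exact le_of_mul_le_mul_left h10 hN0
  linarith

theorem time_thm (h1 : S_der) (h2 : S_cell) : S_time := by
  intro C
  rcases le_or_gt C 0 with hC | hC
  · refine ⟨0, le_rfl, fun F h hT a b k hk => ?_⟩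
    have : {t : ℝ | NN (ph F h t) a k ≤ 1 ∧ 1 ≤ C * NN (ph F h t) a k ∧
      DD (ph F h t) a k ≤ 2 ^ b} = ∅ := by
      rw [eq_empty_iff_forall_notMem]
      rintro t ⟨-, h3, -⟩
      have h4 : 0 ≤ NN (ph F h t) a k := by
        unfold NN
        refine integral_nonneg fun y => ?_
        unfold hess
        positivity
      nlinarith
    rw [this, measure_empty]
    exact zero_le
  refine ⟨512 * C ^ 4, by positivity, fun F h hT a b k hk => ?_⟩
  obtain ⟨cH, cD⟩ := cont_joint h1 hT.smF hT.smh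
  set P : ℝ := (4 : ℝ) ^ a with hP
  have hP0 : 0 < P := by positivity
  set L : ℝ := P / (8 * C) with hL
  have hL0 : 0 < L := by positivity
  set lam : ℝ := 2 ^ (b + 1) * P * (2 * C) with hlam
  have hlam0 : 0 < lam := by positivity
  set E : Set (ℝ × (ℝ × ℝ)) := {z | z.2 ∈ cell a k ∧ L ≤ hess (ph F h z.1) z.2 ∧
    |det2 (ph F h z.1) z.2| ≤ lam} with hE
  have hCell := cell_compact a k
  have hEm : MeasurableSet E := by
    have c1 : IsClosed {z : ℝ × (ℝ × ℝ) | z.2 ∈ cell a k} :=
      hCell.isClosed.preimage continuous_snd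
    exact (c1.inter ((isClosed_le continuous_const cH).inter
      (isClosed_le cD.abs continuous_const))).measurableSet
  set m0 : ℝ := 1 / (4 * C * P) with hm0
  have hm00 : 0 < m0 := by positivity
  -- Markov and Tonelli
  have hM := mul_meas_ge_le_lintegral (μ := (volume : Measure ℝ))
    (measurable_measure_prodMk_left (ν := (volume : Measure (ℝ × ℝ))) hEm) (ENNReal.ofReal m0)
  rw [← Measure.prod_apply hEm, Measure.prod_apply_symm hEm] at hM
  have hsec : ∫⁻ y : ℝ × ℝ, volume ((fun t : ℝ => (t, y)) ⁻¹' E)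
      ≤ ENNReal.ofReal (C * lam / L) * ENNReal.ofReal (4 * P⁻¹) := by
    have hle : ∀ y : ℝ × ℝ, volume ((fun t : ℝ => (t, y)) ⁻¹' E)
        ≤ (cell a k).indicator (fun _ => ENNReal.ofReal (C * lam / L)) y := by
      intro y
      by_cases hy : y ∈ cell a k
      · rw [indicator_of_mem hy]
        refine le_trans (measure_mono ?_) (hT.time y (h2.1 a k hk hy) L lam hL0 hlam0.le)
        intro t ht
        exact ht.2
      · rw [indicator_of_notMem hy]
        have : (fun t : ℝ => (t, y)) ⁻¹' E = ∅ := by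
          rw [eq_empty_iff_forall_notMem]
          intro t ht
          exact hy ht.1
        rw [this, measure_empty]
    refine (lintegral_mono hle).trans_eq ?_
    rw [lintegral_indicator hCell.measurableSet, setLIntegral_const, h2.2.1]
  have hsub : {t : ℝ | NN (ph F h t) a k ≤ 1 ∧ 1 ≤ C * NN (ph F h t) a k ∧
      DD (ph F h t) a k ≤ 2 ^ b} ⊆
      {t : ℝ | ENNReal.ofReal m0 ≤ volume (Prod.mk t ⁻¹' E)} := by
    rintro t ⟨-, h3, h4⟩
    have h5 := lower h1 h2 hC hT a b k hk t h3 h4
    haveI : IsFiniteMeasure (volume.restrict (cell a k)) :=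
      ⟨by rw [Measure.restrict_apply_univ]; exact hCell.measure_lt_top⟩
    have h6 : ENNReal.ofReal m0 ≤ (volume.restrict (cell a k))
      {y | (4 : ℝ) ^ a / (8 * C) ≤ hess (ph F h t) y ∧
        |det2 (ph F h t) y| ≤ 2 ^ (b + 1) * 4 ^ a * (2 * C)} := by
      rw [ENNReal.ofReal_le_iff_le_toReal (measure_ne_top _ _)]
      exact h5
    have h7 : MeasurableSet {y | (4 : ℝ) ^ a / (8 * C) ≤ hess (ph F h t) y ∧
        |det2 (ph F h t) y| ≤ 2 ^ (b + 1) * 4 ^ a * (2 * C)} := by
      have cH' : Continuous (fun y => hess (ph F h t) y) :=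
        cH.comp (Continuous.prodMk continuous_const continuous_id)
      have cD' : Continuous (fun y => |det2 (ph F h t) y|) :=
        (cD.comp (Continuous.prodMk continuous_const continuous_id)).abs
      exact ((isClosed_le continuous_const cH').inter
        (isClosed_le cD' continuous_const)).measurableSet
    rw [Measure.restrict_apply h7] at h6
    refine h6.trans (measure_mono ?_)
    rintro y ⟨hy1, hy2⟩
    exact ⟨hy2, hy1⟩
  have hfin : ENNReal.ofReal m0 * volume {t : ℝ | NN (ph F h t) a k ≤ 1 ∧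
      1 ≤ C * NN (ph F h t) a k ∧ DD (ph F h t) a k ≤ 2 ^ b}
      ≤ ENNReal.ofReal m0 * ENNReal.ofReal (512 * C ^ 4 * 2 ^ b) := by
    refine (mul_le_mul_right (measure_mono hsub) _).trans (hM.trans (hsec.trans_eq ?_))
    rw [← ENNReal.ofReal_mul (by positivity), ← ENNReal.ofReal_mul (by positivity)]
    congr 1
    rw [hm0, hlam, hL, pow_succ]
    field_simp
    norm_num
  have hne0 : ENNReal.ofReal m0 ≠ 0 := by
    rw [Ne, ENNReal.ofReal_eq_zero, not_le]; exact hm00
  exact (ENNReal.mul_le_mul_iff_right hne0 ENNReal.ofReal_ne_top).1 hfin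

end Pool.Agent.W271.PC
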